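import Mathlib
import Pool.Graph.R_pool_sql_team_seeded_47a924f7.Results.MP_8b86ce_co.DivisionMapPositive
import Pool.Agent.KS6_26.E.Lead

/-!
# The `e`-coefficients of `R_k(e_μ)`: explicit positive formula and exact support
(MP_8b86ce_co, Q1)

Symmetric functions are formal power series in the variables `x_0, x_1, …` (`MvPowerSeries ℕ ℚ`).
The coefficient `c λ` of `e_λ` in `R_k(e_μ)`, `μ ⊢ k n`, is shown to be a natural number, given by
an explicit formula with non-negative terms (`walks`, a sum of weights of the 0-1 matrices with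
the column sums `μ_1, μ_2, …` in any fixed order and the row sums `k λ'_1, …, k λ'_n`), and for
`k ≥ 2` it is different from `0` exactly if `μ` is at most `λ^(k)` in the dominance order, where
`λ^(k)` is `λ` with every part repeated `k` times; it is `1` if `μ = λ^(k)`.
-/

namespace Pool.Agent.Results.MP_8b86ce_co.ExactSupport

open Finset Pool.Agent.KS6_26.E Pool.Agent.T6.H58.RK

open scoped Classical in
/-- The elementary symmetric function `e_m` in the variables `x_0, x_1, …`: the sum of all
square-free monomials of degree `m`. -/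
noncomputable def elem (m : ℕ) : MvPowerSeries ℕ ℚ :=
  fun d => if d.degree = m ∧ ∀ i, d i ≤ 1 then 1 else 0

/-- `e_μ`, the product of the `e_{μ_j}` over the parts of `μ`. -/
noncomputable def elemP {m : ℕ} (μ : m.Partition) : MvPowerSeries ℕ ℚ :=
  (μ.parts.map elem).prod

open scoped Classical in
/-- The monomial symmetric function: the sum of all monomials whose multiset of non-zero
exponents is `s`. -/
noncomputable def msym (s : Multiset ℕ) : MvPowerSeries ℕ ℚ :=
  fun d => if d.support.val.map d = s then 1 else 0

/-- The map `R_k`: keep the monomials all of whose exponents are divisible by `k`, and divide all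
their exponents by `k` (the coefficient of `x^d` in `R_k f` is the coefficient of `x^{k d}`
in `f`). -/
noncomputable def divMap (k : ℕ) (f : MvPowerSeries ℕ ℚ) : MvPowerSeries ℕ ℚ :=
  fun d => MvPowerSeries.coeff (k • d) f

/-- The conjugate partition: `conj s i` is the number of the elements of `s` which are larger
than `i`. -/
def conj (s : Multiset ℕ) (i : ℕ) : ℕ := s.countP (fun a => i < a)

open Pool.Agent.Results.MP_8b86ce_co in
/-- **The `e`-coefficients of `R_k(e_μ)`.**  `divMap k` is `R_k`.  Let `μ` be a partition of `k n`.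
There are natural numbers `c λ` (`λ ⊢ n`) such that
* `R_k(e_μ) = ∑ c λ e_λ`, and this is the only expansion with rational coefficients;
* for every order `l` of the parts of `μ`, `c λ` times the product of the binomial coefficients
  `(n choose λ_j)` is the sum `walks` of non-negative weights over the 0-1 matrices with column
  sums `l` and row sums `k λ'_i`;
* for `k ≥ 2`: `c λ ≠ 0` if and only if `μ ≤ λ^(k)` in the dominance order (`λ^(k)`, in Lean
  `k • λ.parts`, is `λ` with every part repeated `k` times);
* `c λ = 1` if `μ = λ^(k)`;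
* for `k = 1`: `c λ = 0` if `μ ≠ λ`. -/
theorem result (k n : ℕ) (hk : 1 ≤ k) :
    (∀ s : Multiset ℕ, divMap k (msym s) = (open scoped Classical in
      if ∀ a ∈ s, k ∣ a then msym (s.map (fun a => a / k)) else 0)) ∧
    ∀ μ : (k * n).Partition, ∃ c : n.Partition → ℕ,
      divMap k (elemP μ) = ∑ lam : n.Partition, (c lam : ℚ) • elemP lam ∧
      (∀ c' : n.Partition → ℚ, divMap k (elemP μ) = ∑ lam : n.Partition, c' lam • elemP lam →
        ∀ lam, c' lam = c lam) ∧
      (∀ l : List ℕ, (l : Multiset ℕ) = μ.parts → ∀ lam : n.Partition,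
        (c lam : ℚ) * ((lam.parts.map (n.choose ·)).prod : ℕ)
          = walks k (fun i : Fin n => k * conj lam.parts i) l (fun _ => 0)) ∧
      (2 ≤ k → ∀ lam : n.Partition, c lam ≠ 0 ↔ Dominated μ.parts (k • lam.parts)) ∧
      (∀ lam : n.Partition, μ.parts = k • lam.parts → c lam = 1) ∧
      (k = 1 → ∀ lam : n.Partition, μ.parts ≠ lam.parts → c lam = 0) := by
  classical
  obtain ⟨h1, h2⟩ := DivisionMapPositive.result k n hk
  refine ⟨h1, fun μ => ?_⟩
  obtain ⟨c, hc, huniq⟩ := h2 μ
  have hparts' : ∀ lam : n.Partition, ∀ b ∈ lam.parts, 1 ≤ b ∧ b ≤ n := by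
    intro lam b hb
    refine ⟨lam.parts_pos hb, ?_⟩
    have := Multiset.le_sum_of_mem hb
    rwa [lam.parts_sum] at this
  have hparts : ∀ lam : n.Partition, mOf (dOf n lam.parts) = lam.parts :=
    fun lam => mOf_dOf (hparts' lam)
  have hinj : Function.Injective (fun lam : n.Partition => dOf n lam.parts) := by
    intro lam lam' h
    have : mOf (dOf n lam.parts) = mOf (dOf n lam'.parts) := by
      simp only at h
      rw [h]
    rw [hparts, hparts] at this
    exact Nat.Partition.ext this
  -- the polynomial with the coefficients `c`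
  set P : MvPolynomial (Fin n) ℚ :=
    ∑ lam : n.Partition, MvPolynomial.monomial (dOf n lam.parts) (c lam : ℚ) with hP
  have hPc : ∀ lam : n.Partition, MvPolynomial.coeff (dOf n lam.parts) P = c lam := by
    intro lam
    rw [hP, MvPolynomial.coeff_sum]
    simp only [MvPolynomial.coeff_monomial]
    rw [Finset.sum_eq_single lam]
    · rw [if_pos rfl]
    · intro lam' _ hne
      rw [if_neg (fun e => hne (hinj e))]
    · intro hn
      exact absurd (Finset.mem_univ lam) hn
  have hPe : MvPolynomial.aeval (fun i : Fin n => MvPolynomial.esymm (Fin n) ℚ (i.val + 1)) P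
      = ∑ lam : n.Partition, (c lam : ℚ) •
        (lam.parts.map (MvPolynomial.esymm (Fin n) ℚ)).prod := by
    rw [hP, map_sum]
    refine Finset.sum_congr rfl fun lam _ => ?_
    have : MvPolynomial.monomial (dOf n lam.parts) (c lam : ℚ)
        = (c lam : ℚ) • MvPolynomial.monomial (dOf n lam.parts) (1 : ℚ) := by
      rw [MvPolynomial.smul_monomial, smul_eq_mul, mul_one]
    rw [this, map_smul, aeval_monomial_esymm, hparts]
  have hformula : ∀ l : List ℕ, (l : Multiset ℕ) = μ.parts → ∀ lam : n.Partition,
      (c lam : ℚ) * ((lam.parts.map (n.choose ·)).prod : ℕ)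
        = walks k (rows n k lam.parts) l (fun _ => 0) := by
    intro l hl lam
    have hq : ∀ d, MvPolynomial.coeff d
        (MvPolynomial.aeval (fun i : Fin n => MvPolynomial.esymm (Fin n) ℚ (i.val + 1)) P)
        = MvPolynomial.coeff (k • d) (l.map (MvPolynomial.esymm (Fin n) ℚ)).prod := by
      intro d
      have e := congrArg (fun f => MvPowerSeries.coeff (Finsupp.embDomain Fin.valEmbedding d) f) hc
      simp only [map_sum, map_smul, DivisionMapPositive.elemP,
        DivisionMapPositive.coeff_embDomain_prod, DivisionMapPositive.coeff_divMap] at e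
      have hk' : k • Finsupp.embDomain Fin.valEmbedding d
          = Finsupp.embDomain Fin.valEmbedding (k • d) := by
        rw [Finsupp.embDomain_eq_mapDomain, Finsupp.embDomain_eq_mapDomain,
          Finsupp.mapDomain_smul]
      rw [hk', DivisionMapPositive.coeff_embDomain_prod, ← hl, Multiset.map_coe,
        Multiset.prod_coe] at e
      rw [hPe, MvPolynomial.coeff_sum, e]
      simp only [MvPolynomial.coeff_smul]
    have h3 := fin_formula n k hk l P _ hq rfl (dOf n lam.parts)
    rw [hPc, nrm_dOf _ (hparts' lam)] at h3
    rw [h3]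
    congr 1
    funext i
    rw [accumulate_dOf _ _ (hparts' lam)]
    rfl
  have hnz : ∀ lam : n.Partition, (0 : ℚ) < ((lam.parts.map (n.choose ·)).prod : ℕ) := by
    intro lam
    rw [← nrm_dOf _ (hparts' lam)]
    exact nrm_pos _
  have hlead : ∀ lam : n.Partition, μ.parts = k • lam.parts → c lam = 1 := by
    intro lam hμ
    obtain ⟨t, ht⟩ : ∃ t : List ℕ, (t : Multiset ℕ) = lam.parts :=
      ⟨lam.parts.toList, by simp⟩
    have h3 := hformula (blocks k t) (by rw [coe_blocks, ht, hμ]) lam
    rw [← ht, ← rowsOf_blocks, walks_blocks hk t (fun _ => 0) _ (fun _ _ => rfl)] at h3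
    · have h4 := hnz lam
      rw [← ht] at h4
      rw [Multiset.map_coe, Multiset.prod_coe] at h3 h4
      have h5 : (c lam : ℚ) = 1 := by
        have := mul_right_cancel₀ h4.ne' (h3.trans (one_mul _).symm)
        exact this
      exact_mod_cast h5
    · intro x hx
      exact (hparts' lam x (by rw [← ht]; simpa using hx)).2
    · intro i
      simp
  refine ⟨c, hc, huniq, hformula, ?_, hlead, ?_⟩
  · intro hk2 lam
    obtain ⟨l, hl⟩ : ∃ l : List ℕ, (l : Multiset ℕ) = μ.parts := ⟨μ.parts.toList, by simp⟩
    have h3 := hformula l hl lam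
    have h4 := walks_pos_iff (n := n) hk2 lam.parts l (fun a ha => (hparts' lam a ha).2) (by
      rw [lam.parts_sum, ← μ.parts_sum, ← hl, Multiset.sum_coe])
    rw [← hl, ← h4, ← h3]
    constructor
    · intro h
      exact mul_pos (by exact_mod_cast Nat.pos_of_ne_zero h) (hnz lam)
    · intro h h0
      rw [h0, Nat.cast_zero, zero_mul] at h
      exact lt_irrefl _ h
  · rintro rfl lam hne
    -- for `k = 1` the map is the identity
    obtain ⟨ν, hν⟩ : ∃ ν : n.Partition, ν.parts = μ.parts :=
      ⟨⟨μ.parts, fun {i} hi => μ.parts_pos hi, by rw [μ.parts_sum, one_mul]⟩, rfl⟩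
    have h3 := huniq (fun lam => if lam = ν then 1 else 0) (by
      have h4 : DivisionMapPositive.divMap 1 (DivisionMapPositive.elemP μ)
          = DivisionMapPositive.elemP μ := by
        ext d
        rw [DivisionMapPositive.coeff_divMap, one_smul]
      rw [h4, Finset.sum_eq_single ν]
      · rw [if_pos rfl, one_smul]
        unfold DivisionMapPositive.elemP
        rw [hν]
      · intro b _ hb
        rw [if_neg hb, zero_smul]
      · intro h; exact absurd (Finset.mem_univ ν) h) lam
    have h5 : lam ≠ ν := by
      rintro rfl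
      exact hne hν.symm
    simp only [if_neg h5] at h3
    exact_mod_cast h3.symm

end Pool.Agent.Results.MP_8b86ce_co.ExactSupport
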